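import Pool.Agent.MP_a5f24b_gt.Mg.Main

namespace Pool.Agent.Results.MP_a5f24b_gt.Linear
open Pool.Agent.MP_a5f24b_gt

/-- Every reduced shadow with `n` crossings resolves into more than `n / 3` isotopy classes of
knots. -/
theorem result (n : ℕ) (γ : ℝ → ℂ) (hγ : IsShadow γ) (hred : Reduced γ)
    (hn : (crossings γ).ncard = n) :
    (1 / 3 : ℝ) * n < (knotTypes γ).ncard := by
  have h := main hγ hred
  rw [hn] at h
  have h' : (n : ℝ) < 3 * (knotTypes γ).ncard := by exact_mod_cast h
  linarith

end Pool.Agent.Results.MP_a5f24b_gt.Linear
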